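import Mathlib
import Pool.Agent.H559R2.SharingAsg

/-! # A robust explicit function

Half of the input labels the positions of the other half as message or query positions; the
function applies the code-based function to the message string and the query string. -/

open Finset

namespace Pool.Agent.Y633.Rob

open Pool.Agent.H559R2.Sharing (modulus width bitAt pv csgn sgn csgn_corr modulus_prime modulus_gt
  modulus_lt_two_pow msgLen width_pos sum_testBit sgn_odd code_bound)

/-- The value at `u` of the polynomial with 0/1 coefficients `z`, modulo `p`. -/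
def lval (p : ℕ) (z : List Bool) (u : ℕ) : ℕ :=
  (∑ i ∈ range z.length, if z.getD i false then u ^ i else 0) % p

/-- The number written in binary in the first half of the `j`-th block of length `2 L`. -/
def lpoint (L : ℕ) (y : List Bool) (j : ℕ) : ℕ :=
  ∑ a ∈ range L, if y.getD (2 * L * j + a) false then 2 ^ a else 0

/-- The parity of the inner products, over all blocks of length `2 L` of `y`, of the second half
of the block with the binary digits of the value of the polynomial `z` at the point given by the
first half. -/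
def core (p L : ℕ) (z y : List Bool) : Bool :=
  decide (Odd (∑ j ∈ range (y.length / (2 * L)), ∑ a ∈ range L,
    if y.getD (2 * L * j + L + a) false && (lval p z (lpoint L y j)).testBit a then 1 else 0))

/-- The data bits with label `b`: the input consists of `N / 2` labels followed by `N / 2` data
bits. -/
def dat {N : ℕ} (x : Fin N → Bool) (b : Bool) : List Bool :=
  ((List.range (N / 2)).filter (fun i => bitAt x i == b)).map (fun i => bitAt x (N / 2 + i))

/-- The explicit function. -/
def robFun (N : ℕ) (x : Fin N → Bool) : Bool :=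
  core (modulus N) (width N) (dat x false) (dat x true)

/-! ### Assignments -/

/-- The query string given by `Y`. -/
def ybit {p L w : ℕ} (Y : Fin w → Fin p × (Fin L → Bool)) (t : ℕ) : Bool :=
  if h : t / (2 * L) < w then
    if t % (2 * L) < L then ((Y ⟨t / (2 * L), h⟩).1 : ℕ).testBit (t % (2 * L))
    else if ho : t % (2 * L) - L < L then (Y ⟨t / (2 * L), h⟩).2 ⟨t % (2 * L) - L, ho⟩ else false
  else false

lemma div_mod_pos' {L j o : ℕ} (ho : o < 2 * L) :
    (2 * L * j + o) / (2 * L) = j ∧ (2 * L * j + o) % (2 * L) = o := by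
  have h1 : 2 * L * j + o = o + 2 * L * j := by omega
  rw [h1]
  constructor
  · rw [Nat.add_mul_div_left _ _ (by omega), Nat.div_eq_of_lt ho, zero_add]
  · rw [Nat.add_mul_mod_self_left, Nat.mod_eq_of_lt ho]

section

variable {p L w k m : ℕ} (z : Fin k → Bool) (Y : Fin w → Fin p × (Fin L → Bool))

lemma ybit_point (b : Fin w) (o : ℕ) (ho : o < L) :
    ybit Y (2 * L * b + o) = ((Y b).1 : ℕ).testBit o := by
  obtain ⟨h1, h2⟩ := div_mod_pos' (L := L) (j := b) (o := o) (by omega)
  unfold ybit
  simp only [h1, h2, b.isLt, dite_true, ho, if_true]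

lemma ybit_val (b : Fin w) (a : Fin L) :
    ybit Y (2 * L * b + L + a) = (Y b).2 a := by
  have ha := a.isLt
  obtain ⟨h1, h2⟩ := div_mod_pos' (L := L) (j := b) (o := L + a) (by omega)
  have hpos : 2 * L * b + L + a = 2 * L * b + (L + a) := by ring
  rw [hpos]
  unfold ybit
  simp only [h1, h2, b.isLt, dite_true]
  rw [if_neg (by omega), dif_pos (by omega)]
  simp only [Nat.add_sub_cancel_left]

lemma ybit_out (j o : ℕ) (hj : w ≤ j) (ho : o < 2 * L) : ybit Y (2 * L * j + o) = false := by
  obtain ⟨h1, h2⟩ := div_mod_pos' (L := L) (j := j) (o := o) ho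
  unfold ybit
  rw [dif_neg (by omega)]

lemma getD_ybit (t : ℕ) (ht : t < m) :
    ((List.range m).map (ybit Y)).getD t false = ybit Y t := by
  rw [List.getD_eq_getElem?_getD, List.getElem?_map, List.getElem?_range ht]
  rfl

lemma lval_ofFn (u : ℕ) : lval p (List.ofFn z) u = pv p k z u := by
  unfold lval pv
  rw [List.length_ofFn, Finset.sum_range]
  congr 1
  apply sum_congr rfl
  intro i _
  rw [List.getD_eq_getElem?_getD, List.getElem?_eq_getElem (by simp)]
  simp

lemma lpoint_ybit (hL : p ≤ 2 ^ L) (hm : 2 * L * w ≤ m) (b : Fin w) :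
    lpoint L ((List.range m).map (ybit Y)) b = (Y b).1 := by
  unfold lpoint
  rw [sum_congr rfl (g := fun a => if ((Y b).1 : ℕ).testBit a then 2 ^ a else 0)]
  · rw [sum_testBit, Nat.mod_eq_of_lt]
    exact (Y b).1.isLt.trans_le hL
  · intro a ha
    have ha' := mem_range.1 ha
    have h1 : 2 * L * (b + 1) ≤ 2 * L * w := Nat.mul_le_mul_left _ b.isLt
    have h2 : 2 * L * ((b : ℕ) + 1) = 2 * L * b + 2 * L := by ring
    rw [getD_ybit Y _ (by omega), ybit_point Y b a ha']

lemma sgn_core (hLpos : 0 < L) (hL : p ≤ 2 ^ L) (hm : 2 * L * w ≤ m) :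
    sgn (core p L (List.ofFn z) ((List.range m).map (ybit Y))) = ∏ b, csgn p k L z (Y b) := by
  unfold core
  rw [sgn_odd]
  have hlen : ((List.range m).map (ybit Y)).length = m := by simp
  have hw : w ≤ m / (2 * L) := by
    rw [Nat.le_div_iff_mul_le (by omega)]
    calc w * (2 * L) = 2 * L * w := by ring
      _ ≤ m := hm
  have hsplit : ∑ j ∈ range (((List.range m).map (ybit Y)).length / (2 * L)), ∑ a ∈ range L,
      (if ((List.range m).map (ybit Y)).getD (2 * L * j + L + a) false &&
        (lval p (List.ofFn z) (lpoint L ((List.range m).map (ybit Y)) j)).testBit a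
        then 1 else 0) =
      ∑ b : Fin w, ∑ a : Fin L,
        (if (Y b).2 a && (pv p k z (Y b).1).testBit a then 1 else 0) := by
    rw [hlen]
    have hsub : range w ⊆ range (m / (2 * L)) := by
      intro j hj
      rw [mem_range] at hj ⊢
      omega
    have hbound : ∀ j < m / (2 * L), 2 * L * j + 2 * L ≤ m := by
      intro j hj
      have h1 : 2 * L * (j + 1) ≤ 2 * L * (m / (2 * L)) := Nat.mul_le_mul_left _ hj
      have h2 := Nat.mul_div_le m (2 * L)
      have h3 : 2 * L * (j + 1) = 2 * L * j + 2 * L := by ring
      omega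
    rw [← sum_subset hsub]
    · rw [Finset.sum_range]
      apply sum_congr rfl
      intro b _
      rw [Finset.sum_range]
      apply sum_congr rfl
      intro a _
      have ha := a.isLt
      have hb := hbound b (lt_of_lt_of_le b.isLt hw)
      rw [getD_ybit Y _ (by omega), ybit_val Y b a, lpoint_ybit Y hL hm b, lval_ofFn]
    · intro j hj hj'
      rw [mem_range] at hj hj'
      apply sum_eq_zero
      intro a ha
      have ha' := mem_range.1 ha
      have hb := hbound j hj
      have : 2 * L * j + L + a = 2 * L * j + (L + a) := by ring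
      rw [this, getD_ybit Y _ (by omega), ybit_out Y j (L + a) (by omega) (by omega)]
      simp
  rw [hsplit, ← prod_pow_eq_pow_sum]
  apply prod_congr rfl
  intro b _
  rw [← prod_pow_eq_pow_sum]
  unfold csgn
  apply prod_congr rfl
  intro a _
  split_ifs <;> simp

lemma core_zero (hLpos : 0 < L) (hL : p ≤ 2 ^ L) (hm : 2 * L * w ≤ m) :
    core p L (List.ofFn (fun _ : Fin k => false)) ((List.range m).map (ybit Y)) = false := by
  have h := sgn_core (fun _ : Fin k => false) Y hLpos hL hm
  have h1 : ∀ b, csgn p k L (fun _ => false) (Y b) = 1 := by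
    intro b
    unfold csgn pv
    simp
  simp only [h1, prod_const_one] at h
  cases hh : core p L (List.ofFn (fun _ : Fin k => false)) ((List.range m).map (ybit Y)) with
  | false => rfl
  | true => rw [hh] at h; simp [sgn] at h

end

/-! ### The assignment with query positions `G` -/

/-- The list of the positions below `n` in (`b = true`) or outside (`b = false`) the set `G`. -/
def posList (n : ℕ) (G : Finset ℕ) (b : Bool) : List ℕ :=
  (List.range n).filter (fun i => decide (i ∈ G) == b)

lemma posList_nodup (n : ℕ) (G : Finset ℕ) (b : Bool) : (posList n G b).Nodup :=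
  List.Nodup.filter _ List.nodup_range

lemma mem_posList {n : ℕ} {G : Finset ℕ} {b : Bool} {i : ℕ} :
    i ∈ posList n G b ↔ i < n ∧ decide (i ∈ G) = b := by
  simp [posList]

lemma posList_length_true {n : ℕ} {G : Finset ℕ} (hG : G ⊆ range n) :
    (posList n G true).length = G.card := by
  rw [← List.toFinset_card_of_nodup (posList_nodup n G true)]
  congr 1
  ext i
  rw [List.mem_toFinset, mem_posList]
  simp only [decide_eq_true_eq]
  constructor
  · exact fun h => h.2
  · exact fun h => ⟨mem_range.1 (hG h), h⟩

lemma posList_length_false {n : ℕ} {G : Finset ℕ} (hG : G ⊆ range n) :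
    (posList n G false).length = n - G.card := by
  rw [← List.toFinset_card_of_nodup (posList_nodup n G false)]
  have : (posList n G false).toFinset = range n \ G := by
    ext i
    rw [List.mem_toFinset, mem_posList, mem_sdiff, mem_range]
    simp
  rw [this, card_sdiff_of_subset hG, card_range]

/-- The assignment with query positions `G`, message `z` and queries `Y`. -/
def asgR (N : ℕ) (G : Finset ℕ) {k p L w : ℕ} (z : Fin k → Bool)
    (Y : Fin w → Fin p × (Fin L → Bool)) (i : Fin N) : Bool :=
  if (i : ℕ) < N / 2 then decide ((i : ℕ) ∈ G)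
  else if ((i : ℕ) - N / 2) ∈ G then ybit Y ((posList (N / 2) G true).idxOf ((i : ℕ) - N / 2))
  else if h : (posList (N / 2) G false).idxOf ((i : ℕ) - N / 2) < k then
    z ⟨(posList (N / 2) G false).idxOf ((i : ℕ) - N / 2), h⟩
  else false

lemma asgR_mem (N : ℕ) (G : Finset ℕ) {k p L w : ℕ} (z z' : Fin k → Bool)
    (Y : Fin w → Fin p × (Fin L → Bool)) (i : Fin N) (hi : N / 2 ≤ (i : ℕ))
    (hi' : (i : ℕ) - N / 2 ∈ G) : asgR N G z Y i = asgR N G z' Y i := by
  have h : ¬ (i : ℕ) < N / 2 := by omega
  simp only [asgR, if_neg h, if_pos hi']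

lemma asgR_not_mem (N : ℕ) (G : Finset ℕ) {k p L w : ℕ} (z : Fin k → Bool)
    (Y Y' : Fin w → Fin p × (Fin L → Bool)) (i : Fin N)
    (hi : ¬ (N / 2 ≤ (i : ℕ) ∧ (i : ℕ) - N / 2 ∈ G)) : asgR N G z Y i = asgR N G z Y' i := by
  unfold asgR
  by_cases h : (i : ℕ) < N / 2
  · rw [if_pos h, if_pos h]
  · have h2 : ¬ (i : ℕ) - N / 2 ∈ G := fun h' => hi ⟨by omega, h'⟩
    simp only [if_neg h, if_neg h2]

lemma bitAt_asgR_label (N : ℕ) (G : Finset ℕ) {k p L w : ℕ} (z : Fin k → Bool)
    (Y : Fin w → Fin p × (Fin L → Bool)) (i : ℕ) (hi : i < N / 2) :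
    bitAt (asgR N G z Y) i = decide (i ∈ G) := by
  unfold bitAt
  rw [dif_pos (by omega)]
  unfold asgR
  rw [if_pos hi]

lemma dat_true (N : ℕ) (G : Finset ℕ) (hG : G ⊆ range (N / 2)) {k p L w : ℕ} (z : Fin k → Bool)
    (Y : Fin w → Fin p × (Fin L → Bool)) :
    dat (asgR N G z Y) true = (List.range G.card).map (ybit Y) := by
  have h1 : (List.range (N / 2)).filter (fun i => bitAt (asgR N G z Y) i == true) =
      posList (N / 2) G true := by
    unfold posList
    apply List.filter_congr
    intro i hi
    rw [bitAt_asgR_label N G z Y i (List.mem_range.1 hi)]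
  unfold dat
  rw [h1]
  apply List.ext_getElem
  · rw [List.length_map, List.length_map, List.length_range, posList_length_true hG]
  · intro t h2 h3
    rw [List.length_map] at h2
    rw [List.getElem_map, List.getElem_map, List.getElem_range]
    have hmem := List.getElem_mem h2
    obtain ⟨h4, h5⟩ := mem_posList.1 hmem
    rw [decide_eq_true_eq] at h5
    unfold bitAt
    rw [dif_pos (by omega)]
    unfold asgR
    simp only
    rw [if_neg (by omega), Nat.add_sub_cancel_left, if_pos h5,
      (posList_nodup (N / 2) G true).idxOf_getElem t h2]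

lemma dat_false (N : ℕ) (G : Finset ℕ) {k p L w : ℕ}
    (hk : k = (posList (N / 2) G false).length) (z : Fin k → Bool)
    (Y : Fin w → Fin p × (Fin L → Bool)) :
    dat (asgR N G z Y) false = List.ofFn z := by
  have h1 : (List.range (N / 2)).filter (fun i => bitAt (asgR N G z Y) i == false) =
      posList (N / 2) G false := by
    unfold posList
    apply List.filter_congr
    intro i hi
    rw [bitAt_asgR_label N G z Y i (List.mem_range.1 hi)]
  unfold dat
  rw [h1]
  apply List.ext_getElem
  · rw [List.length_map, List.length_ofFn, hk]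
  · intro t h2 h3
    rw [List.length_map] at h2
    rw [List.getElem_map, List.getElem_ofFn]
    have hmem := List.getElem_mem h2
    obtain ⟨h4, h5⟩ := mem_posList.1 hmem
    rw [decide_eq_false_iff_not] at h5
    unfold bitAt
    rw [dif_pos (by omega)]
    unfold asgR
    simp only
    have h6 := (posList_nodup (N / 2) G false).idxOf_getElem t h2
    rw [if_neg (by omega), Nat.add_sub_cancel_left, if_neg h5, dif_pos (by rw [h6, hk]; exact h2)]
    congr 1
    apply Fin.ext
    exact h6

theorem sgn_robFun {N : ℕ} (G : Finset ℕ) (hG : G ⊆ range (N / 2)) {k w : ℕ}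
    (hk : k = N / 2 - G.card) (hw : 2 * width N * w ≤ G.card) (z : Fin k → Bool)
    (Y : Fin w → Fin (modulus N) × (Fin (width N) → Bool)) :
    sgn (robFun N (asgR N G z Y)) = ∏ b, csgn (modulus N) k (width N) z (Y b) := by
  unfold robFun
  rw [dat_true N G hG, dat_false N G (by rw [posList_length_false hG]; exact hk),
    sgn_core z Y (width_pos N) (modulus_lt_two_pow N).le hw]

theorem robFun_zero {N : ℕ} (G : Finset ℕ) (hG : G ⊆ range (N / 2)) {k w : ℕ}
    (hk : k = N / 2 - G.card) (hw : 2 * width N * w ≤ G.card)
    (Y : Fin w → Fin (modulus N) × (Fin (width N) → Bool)) :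
    robFun N (asgR N G (fun _ : Fin k => false) Y) = false := by
  unfold robFun
  rw [dat_true N G hG, dat_false N G (by rw [posList_length_false hG]; exact hk),
    core_zero Y (width_pos N) (modulus_lt_two_pow N).le hw]

end Pool.Agent.Y633.Rob
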