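import Mathlib
import Pool.Agent.Y633.Dep.Fam
import Pool.Agent.Y633.Rob.Func

/-! # The connectivity property of circuits for the robust function -/

open Finset

set_option linter.unusedSectionVars false

namespace Pool.Agent.Y633.Rob

open Pool.Agent.Y633.Dep
open Pool.Agent.H559R2.Sharing (modulus width msgLen csgn sgn csgn_corr modulus_prime modulus_gt
  modulus_lt_two_pow width_pos code_bound)

/-- The check at gate `j` that the guesses are right, and that the output is true. -/
def chk {s : ℕ} (R : Finset (Fin s)) (o : Fin s) (a : {j // j ∈ R} → Bool) (j : Fin s)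
    (b : Bool) : Bool :=
  if h : j ∈ R then (b == a ⟨j, h⟩) && (decide (j ≠ o) || b) else true

/-- The guessed run is a correct accepting run. -/
def accept {s : ℕ} (R : Finset (Fin s)) (o : Fin s) (a : {j // j ∈ R} → Bool)
    (v : Fin s → Bool) : Bool :=
  decide (∀ j, chk R o a j (v j) = true)

section

variable {n q : ℕ} {Ω Z : Type*} [Fintype Ω] [DecidableEq Ω] [Nonempty Ω]

/-- Some guess is correct for a large fraction of the accepted assignments. -/
theorem guess_lemma (C : Circuit n q) (R : Finset (Fin C.size)) (hout : C.out ∈ R)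
    (x : Z → Ω → Fin n → Bool) (f : (Fin n → Bool) → Bool) (hf : C.Computes f)
    (V : Z × (Fin q → Bool) → ({j // j ∈ R} → Bool) → Ω → Fin C.size → Bool)
    (hV : ∀ z a Y i, V z a Y i =
      C.op i (fun b => cutSrc R (Sum.elim (x z.1 Y) z.2) a (V z a Y) (C.src i b))) (z : Z) :
    ∃ (w : Fin q → Bool) (a : {j // j ∈ R} → Bool),
      (∀ Y, accept R C.out a (V (z, w) a Y) = true → f (x z Y) = true) ∧
        (univ.filter fun Y => f (x z Y) = true).card ≤
          2 ^ (q + R.card) * (univ.filter fun Y => accept R C.out a (V (z, w) a Y) = true).card := by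
  classical
  -- soundness
  have hsound : ∀ w a Y, accept R C.out a (V (z, w) a Y) = true → f (x z Y) = true := by
    intro w a Y h
    simp only [accept, decide_eq_true_eq] at h
    have hc' : ∀ j (hj : j ∈ R), V (z, w) a Y j = a ⟨j, hj⟩ := by
      intro j hj
      have := h j
      simp only [chk, hj, dite_true, Bool.and_eq_true, beq_iff_eq] at this
      exact this.1
    have ho : V (z, w) a Y C.out = true := by
      have := h C.out
      simp only [chk, hout, dite_true, Bool.and_eq_true, beq_iff_eq, ne_eq, not_true_eq_false,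
        decide_false, Bool.false_or] at this
      exact this.2
    have hsv : ∀ b, cutSrc R (Sum.elim (x z Y) w) a (V (z, w) a Y) b =
        Sum.elim (Sum.elim (x z Y) w) (V (z, w) a Y) b := by
      intro b
      rcases b with b | b
      · rfl
      · simp only [cutSrc, Sum.elim_inr]
        split_ifs with hb
        · exact (hc' b hb).symm
        · rfl
    rw [hf]
    refine ⟨w, V (z, w) a Y, ?_, ho⟩
    intro i
    rw [hV (z, w) a Y i]
    congr 1
    funext b
    exact hsv _
  -- completeness
  have hcomp : ∀ Y, f (x z Y) = true →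
      ∃ wa : (Fin q → Bool) × ({j // j ∈ R} → Bool),
      accept R C.out wa.2 (V (z, wa.1) wa.2 Y) = true := by
    intro Y h
    rw [hf] at h
    obtain ⟨w, v, hrun, hout'⟩ := h
    refine ⟨(w, fun j => v j), ?_⟩
    have hsv : ∀ b, cutSrc R (Sum.elim (x z Y) w)
        (fun j : {j // j ∈ R} => v j) v b = Sum.elim (Sum.elim (x z Y) w) v b := by
      intro b
      rcases b with b | b
      · rfl
      · simp only [cutSrc, Sum.elim_inr]
        split_ifs <;> rfl
    have hVv : V (z, w) (fun j : {j // j ∈ R} => v j) Y = v := by
      have key : ∀ m : ℕ, ∀ i : Fin C.size, i.val < m →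
          V (z, w) (fun j : {j // j ∈ R} => v j) Y i = v i := by
        intro m
        induction m with
        | zero => intro i hi; exact absurd hi (Nat.not_lt_zero _)
        | succ m ih =>
          intro i hi
          rw [hV, hrun i]
          congr 1
          funext b
          rw [← hsv]
          rcases hs : C.src i b with b' | b'
          · rfl
          · simp only [cutSrc]
            have hlt : b'.val < i.val := C.acyclic i b b' hs
            split_ifs
            · rfl
            · exact ih b' (by omega)
      funext i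
      exact key C.size i i.isLt
    simp only [accept, decide_eq_true_eq]
    rw [hVv]
    intro j
    by_cases hj : j ∈ R
    · simp only [chk, hj, dite_true, beq_self_eq_true, Bool.true_and, Bool.or_eq_true,
        decide_eq_true_eq]
      by_cases hjo : j = C.out
      · right; rw [hjo]; exact hout'
      · left; exact hjo
    · simp only [chk, hj, dite_false]
  -- pigeonhole
  by_contra hcon
  push Not at hcon
  have hlt : ∀ wa : (Fin q → Bool) × ({j // j ∈ R} → Bool),
      2 ^ (q + R.card) *
        (univ.filter fun Y => accept R C.out wa.2 (V (z, wa.1) wa.2 Y) = true).card <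
        (univ.filter fun Y => f (x z Y) = true).card := by
    intro wa
    exact hcon wa.1 wa.2 (hsound wa.1 wa.2)
  have hsub : (univ.filter fun Y => f (x z Y) = true) ⊆
      (univ : Finset ((Fin q → Bool) × ({j // j ∈ R} → Bool))).biUnion
        (fun wa => univ.filter fun Y => accept R C.out wa.2 (V (z, wa.1) wa.2 Y) = true) := by
    intro Y hY
    simp only [mem_filter, mem_univ, true_and] at hY
    obtain ⟨wa, hwa⟩ := hcomp Y hY
    simp only [mem_biUnion, mem_filter, mem_univ, true_and]
    exact ⟨wa, hwa⟩
  have hsum := (card_le_card hsub).trans card_biUnion_le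
  have hN : (univ : Finset ((Fin q → Bool) × ({j // j ∈ R} → Bool))).card =
      2 ^ (q + R.card) := by
    rw [card_univ]
    simp [Fintype.card_prod, pow_add]
  have hmul : 2 ^ (q + R.card) *
      ∑ wa : (Fin q → Bool) × ({j // j ∈ R} → Bool),
        (univ.filter fun Y => accept R C.out wa.2 (V (z, wa.1) wa.2 Y) = true).card <
      2 ^ (q + R.card) * (univ.filter fun Y => f (x z Y) = true).card := by
    rw [mul_sum]
    calc ∑ wa : (Fin q → Bool) × ({j // j ∈ R} → Bool),
        2 ^ (q + R.card) *
          (univ.filter fun Y => accept R C.out wa.2 (V (z, wa.1) wa.2 Y) = true).card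
        < ∑ wa : (Fin q → Bool) × ({j // j ∈ R} → Bool),
          (univ.filter fun Y => f (x z Y) = true).card := by
          apply sum_lt_sum_of_nonempty univ_nonempty
          intro wa _
          exact hlt wa
      _ = 2 ^ (q + R.card) * (univ.filter fun Y => f (x z Y) = true).card := by
          rw [sum_const, hN, smul_eq_mul]
  have := Nat.lt_of_mul_lt_mul_left hmul
  omega

/-- The set `L` contains every gate that can be reached from the inputs in `B` by a path whose
inner gates avoid `R`. -/
structure Closed (C : Circuit n q) (B : Finset (Fin n)) (R L : Finset (Fin C.size)) : Prop where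
  inp : ∀ i a g, C.src i a = Sum.inl (Sum.inl g) → g ∈ B → i ∈ L
  gate : ∀ i a j, C.src i a = Sum.inr j → j ∈ L → j ∉ R → i ∈ L

/-- The number of behaviours on the live inputs. -/
theorem exists_family_live {K : ℕ} (C : Circuit n q) (hK : ∀ i, C.arity i ≤ K)
    (B : Finset (Fin n)) (R L : Finset (Fin C.size)) (hout : C.out ∈ R) (hL : Closed C B R L)
    (x : Z → Ω → Fin n → Bool) (α : Ω → Fin n → Bool)
    (hx : ∀ z Y, ∀ i ∈ B, x z Y i = α Y i)
    (hx' : ∀ z Y Y', ∀ i ∉ B, x z Y i = x z Y' i)
    (f : (Fin n → Bool) → Bool) (hf : C.Computes f) :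
    ∃ H : Finset (Ω → Bool),
      H.card ≤ 2 ^ ((K + 1) * L.card + 1) ∧
      ∀ z, ∃ h ∈ H, (∀ Y, h Y = true → f (x z Y) = true) ∧
        (univ.filter fun Y => f (x z Y) = true).card ≤
          2 ^ (q + R.card) * (univ.filter fun Y => h Y = true).card := by
  classical
  obtain ⟨Y₀⟩ := ‹Nonempty Ω›
  haveI : Nonempty Ω := ⟨Y₀⟩
  choose V hV using fun (z : Z × (Fin q → Bool)) (a : {j // j ∈ R} → Bool) (Y : Ω) =>
    exists_cutRun C R (Sum.elim (x z.1 Y) z.2) a
  -- dead gates are constant
  have hdead : ∀ (z : Z × (Fin q → Bool)) a Y (m : ℕ) (i : Fin C.size), i.val < m → i ∉ L →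
      V z a Y i = V z a Y₀ i := by
    intro z a Y m
    induction m with
    | zero => intro i hi; exact absurd hi (Nat.not_lt_zero _)
    | succ m ih =>
      intro i hi hiL
      rw [hV z a Y i, hV z a Y₀ i]
      congr 1
      funext b
      rcases hs : C.src i b with (g | g) | j
      · simp only [cutSrc, Sum.elim_inl]
        exact hx' z.1 Y Y₀ g (fun hg => hiL (hL.inp i b g hs hg))
      · simp only [cutSrc, Sum.elim_inr]
      · simp only [cutSrc]
        by_cases hj : j ∈ R
        · simp only [hj, dite_true]
        · simp only [hj, dite_false]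
          have hlt : j.val < i.val := C.acyclic i b j hs
          exact ih j (by omega) (fun hjL => hiL (hL.gate i b j hs hjL hj))
  -- the data determining the behaviour
  let τ : Type := ({i // i ∈ L} → (Fin K → Bool) × Bool) × Bool
  let κ : Z × (Fin q → Bool) → ({j // j ∈ R} → Bool) → τ := fun z a =>
    (fun i => (fun b => if h : b.val < C.arity i.1 then
      cutSrc R (Sum.elim (x z.1 Y₀) z.2) a (V z a Y₀) (C.src i.1 ⟨b.val, h⟩) else false,
      if h : i.1 ∈ R then a ⟨i.1, h⟩ else false),
      decide (∀ j ∉ L, chk R C.out a j (V z a Y₀ j) = true))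
  have hsame : ∀ z a z' a', κ z a = κ z' a' → ∀ Y,
      accept R C.out a (V z a Y) = accept R C.out a' (V z' a' Y) := by
    intro z a z' a' hκ Y
    have hκ1 := congrArg Prod.fst hκ
    have hκ2 := congrArg Prod.snd hκ
    have hwire : ∀ (i : Fin C.size) (hi : i ∈ L) (b : Fin (C.arity i)),
        cutSrc R (Sum.elim (x z.1 Y₀) z.2) a (V z a Y₀) (C.src i b) =
          cutSrc R (Sum.elim (x z'.1 Y₀) z'.2) a' (V z' a' Y₀) (C.src i b) := by
      intro i hi b
      have h1 := congrArg Prod.fst (congrFun hκ1 ⟨i, hi⟩)
      have h2 := congrFun h1 ⟨b.val, b.isLt.trans_le (hK i)⟩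
      simpa only [κ, b.isLt, dite_true, Fin.eta] using h2
    have hval : ∀ (m : ℕ) (i : Fin C.size), i.val < m → i ∈ L → V z a Y i = V z' a' Y i := by
      intro m
      induction m with
      | zero => intro i hi; exact absurd hi (Nat.not_lt_zero _)
      | succ m ih =>
        intro i hi hiL
        rw [hV z a Y i, hV z' a' Y i]
        congr 1
        funext b
        have hw := hwire i hiL b
        rcases hs : C.src i b with (g | g) | j
        · rw [hs] at hw
          simp only [cutSrc, Sum.elim_inl] at hw ⊢
          by_cases hg : g ∈ B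
          · rw [hx z.1 Y g hg, hx z'.1 Y g hg]
          · rw [hx' z.1 Y Y₀ g hg, hx' z'.1 Y Y₀ g hg]
            exact hw
        · rw [hs] at hw
          simp only [cutSrc, Sum.elim_inr] at hw ⊢
          exact hw
        · rw [hs] at hw
          simp only [cutSrc] at hw ⊢
          by_cases hj : j ∈ R
          · simp only [hj, dite_true] at hw ⊢
            exact hw
          · simp only [hj, dite_false] at hw ⊢
            by_cases hjL : j ∈ L
            · have hlt : j.val < i.val := C.acyclic i b j hs
              exact ih j (by omega) hjL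
            · rw [hdead z a Y (j.val + 1) j (Nat.lt_succ_self _) hjL,
                hdead z' a' Y (j.val + 1) j (Nat.lt_succ_self _) hjL]
              exact hw
    have hsplit : ∀ (z : Z × (Fin q → Bool)) a, accept R C.out a (V z a Y) =
        (decide (∀ j ∈ L, chk R C.out a j (V z a Y j) = true) &&
          decide (∀ j ∉ L, chk R C.out a j (V z a Y₀ j) = true)) := by
      intro z a
      rw [Bool.eq_iff_iff, Bool.and_eq_true, accept, decide_eq_true_eq, decide_eq_true_eq,
        decide_eq_true_eq]
      constructor
      · intro h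
        refine ⟨fun j _ => h j, fun j hj => ?_⟩
        rw [← hdead z a Y (j.val + 1) j (Nat.lt_succ_self _) hj]
        exact h j
      · rintro ⟨h1, h2⟩ j
        by_cases hj : j ∈ L
        · exact h1 j hj
        · rw [hdead z a Y (j.val + 1) j (Nat.lt_succ_self _) hj]
          exact h2 j hj
    rw [hsplit z a, hsplit z' a']
    congr 1
    rw [decide_eq_decide]
    refine forall_congr' fun j => forall_congr' fun hj => ?_
    have h1 := congrArg Prod.snd (congrFun hκ1 ⟨j, hj⟩)
    simp only [κ] at h1
    rw [hval (j.val + 1) j (Nat.lt_succ_self _) hj]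
    have : chk R C.out a j (V z' a' Y j) = chk R C.out a' j (V z' a' Y j) := by
      unfold chk
      by_cases hjR : j ∈ R
      · simp only [hjR, dite_true] at h1 ⊢
        rw [h1]
      · simp only [hjR, dite_false]
    rw [this]
  let H : Finset (Ω → Bool) := (univ : Finset τ).image fun t =>
    if h : ∃ za : (Z × (Fin q → Bool)) × ({j // j ∈ R} → Bool), κ za.1 za.2 = t then
      fun Y => accept R C.out h.choose.2 (V h.choose.1 h.choose.2 Y) else fun _ => false
  refine ⟨H, ?_, ?_⟩
  · refine card_image_le.trans ?_
    rw [card_univ]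
    have : Fintype.card τ = (2 ^ K * 2) ^ L.card * 2 := by
      simp only [τ, Fintype.card_prod, Fintype.card_fun, Fintype.card_bool, Fintype.card_fin,
        Fintype.card_coe]
    rw [this, ← pow_succ, ← pow_mul, ← pow_succ]
  · intro z
    obtain ⟨w, a, h1, h2⟩ := guess_lemma C R hout x f hf V hV z
    refine ⟨fun Y => accept R C.out a (V (z, w) a Y), ?_, h1, h2⟩
    simp only [H, mem_image, mem_univ, true_and]
    refine ⟨κ (z, w) a, ?_⟩
    have hex : ∃ za : (Z × (Fin q → Bool)) × ({j // j ∈ R} → Bool),
        κ za.1 za.2 = κ (z, w) a := ⟨((z, w), a), rfl⟩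
    rw [dif_pos hex]
    funext Y
    exact hsame _ _ _ _ hex.choose_spec Y

end

/-- The inputs of the data positions in `G`. -/
def dataSet (N : ℕ) (G : Finset ℕ) : Finset (Fin N) :=
  univ.filter fun i => N / 2 ≤ (i : ℕ) ∧ (i : ℕ) - N / 2 ∈ G

/-- The connectivity property: a cut set `R` does not separate a set `G` of data positions,
somewhat larger than `R`, from most gates. -/
theorem master {N q K : ℕ} (C : Circuit N q) (hK : ∀ i, C.arity i ≤ K)
    (hC : C.Computes (robFun N)) (G : Finset ℕ) (hG : G ⊆ range (N / 2)) (w : ℕ)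
    (hw : 2 * width N * w ≤ G.card) (R L : Finset (Fin C.size)) (hout : C.out ∈ R)
    (hL : Closed C (dataSet N G) R L)
    (hpow : 2 ^ (q + R.card + 4) ≤ (N / 2 - G.card) ^ w) :
    N / 2 - G.card ≤ (K + 1) * L.card + R.card + q + 4 := by
  classical
  have : Fact (modulus N).Prime := ⟨modulus_prime N⟩
  have : Nonempty (Fin (modulus N)) := ⟨⟨0, (modulus_prime N).pos⟩⟩
  set k := N / 2 - G.card with hk
  obtain ⟨H, hHcard, hH⟩ := exists_family_live (Ω := Fin w → Fin (modulus N) ×
      (Fin (width N) → Bool)) (Z := Fin k → Bool) C hK (dataSet N G) R L hout hL (asgR N G)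
    (fun Y => asgR N G (fun _ : Fin k => false) Y)
    (by
      intro z Y i hi
      simp only [dataSet, mem_filter, mem_univ, true_and] at hi
      exact asgR_mem N G z (fun _ => false) Y i hi.1 hi.2)
    (by
      intro z Y Y' i hi
      simp only [dataSet, mem_filter, mem_univ, true_and] at hi
      exact asgR_not_mem N G z Y Y' i hi) (robFun N) hC
  have hcode := code_bound (q + R.card)
    (fun (z : Fin k → Bool) Y => robFun N (asgR N G z Y)) (fun _ => false)
    (fun Y => robFun_zero G hG hk hw Y)
    (by
      intro z z' hzz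
      have := csgn_corr (modulus N) k (width N) w (q + R.card)
        (modulus_lt_two_pow N).le (by
          have h1 := modulus_gt N
          have h2 : k ^ 2 ≤ (msgLen N) ^ 2 := Nat.pow_le_pow_left (Nat.sub_le _ _) 2
          omega) hpow z z' hzz
      refine le_trans (le_of_eq ?_) this
      congr 1
      apply sum_congr rfl
      intro Y _
      rw [sgn_robFun G hG hk hw z Y, sgn_robFun G hG hk hw z' Y])
    H hH
  rw [Fintype.card_fun, Fintype.card_bool, Fintype.card_fin] at hcode
  have h1 : 2 ^ k ≤ 2 ^ ((K + 1) * L.card + R.card + q + 4) + 1 := by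
    refine hcode.trans (Nat.add_le_add_right ?_ 1)
    calc H.card * 2 ^ (q + R.card + 3)
        ≤ 2 ^ ((K + 1) * L.card + 1) * 2 ^ (q + R.card + 3) := Nat.mul_le_mul_right _ hHcard
      _ = 2 ^ ((K + 1) * L.card + R.card + q + 4) := by
          rw [← pow_add]
          congr 1
          ring
  by_contra hcon
  push Not at hcon
  have h2 : 2 ^ ((K + 1) * L.card + R.card + q + 4 + 1) ≤ 2 ^ k :=
    Nat.pow_le_pow_right (by norm_num) (by omega)
  rw [pow_succ] at h2
  have h3 : 2 ≤ 2 ^ ((K + 1) * L.card + R.card + q + 4) := by
    calc 2 = 2 ^ 1 := by norm_num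
      _ ≤ _ := Nat.pow_le_pow_right (by norm_num) (by omega)
  omega

end Pool.Agent.Y633.Rob
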